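import Mathlib
import Pool.Agent.L5helper11.GP.Stm
import Pool.Agent.L5helper11.GP.Board

/-!
# The gunport problem: the formula fails for the `16 × 14` board

For boards with no side divisible by `3` the proposed value of `G(16, 14)` is `(16 * 14 - 2) / 3 = 74`; the true value
is `72`.

Proof. In a configuration with `D` dominoes and `H` holes every hole which is not in the last row is above a domino
that starts in the next row, and every domino has at most one hole immediately above it; the same holds upside down.
So `2 (D - H) + 2` is a sum of non-negative costs: the dominoes without a hole above them (below them) in the rows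
where they start (end), and two terms for the first and for the last row. For `74` holes this sum is `4`. One of the
two halves of the board has costs at most `2`, and the words of the rows which can occur there are listed, row by row,
in search trees (`Pool.Agent.L5helper11.GP.S1`, ...); the kernel checks that the lists are closed under all
continuations and that no two of them fit together.
-/

set_option autoImplicit false

namespace Pool.Agent.Results.MP_290120_co.GunportFormulaFails

open Pool.Agent.L5helper11.GP

/-- The maximal number `G 16 14` of holes of a gunport configuration on the `16 × 14` board is `72`, so that the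
formula `G m n = (m n - 4) / 3` for `m ≡ n (mod 3)`, `G m n = (m n - 2) / 3` otherwise, does not hold for all
`m, n ≥ 2` not divisible by `3` (it gives `74` for `m = 16`, `n = 14`). -/
theorem result :
    IsGreatest {h : ℕ | ∃ D, IsGunport 16 14 D ∧ (holes 16 14 D).card = h} 72 ∧ G 16 14 = 72 ∧
    ¬ ∀ m n : ℕ, 2 ≤ m → 2 ≤ n → ¬ 3 ∣ m → ¬ 3 ∣ n →
      G m n = if m % 3 = n % 3 then (m * n - 4) / 3 else (m * n - 2) / 3 := by
  refine ⟨isGreatest, G_eq, fun h => ?_⟩
  have h1 := h 16 14 (by norm_num) (by norm_num) (by norm_num) (by norm_num)
  rw [G_eq] at h1
  norm_num at h1

end Pool.Agent.Results.MP_290120_co.GunportFormulaFails
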